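import Pool.Agent.Helper78.ME.Goals

/-!
# Packet MLS3 of the campaign ME: the machines on numbers form a family computed in linear space
-/

set_option linter.unusedSectionVars false
set_option exponentiation.threshold 30000

namespace Pool.Agent.Helper73.ME

open Pool.Agent.Helper65.LinSpace Pool.Agent.Helper78.Mpc Pool.Agent.Helper28.Ram
open Pool.Agent.Helper78.ME Finset
open Pool.Agent.Helper78 (Ep.CE Ep.mR)

variable {α β : Type} [Ctx α] [Ctx β]

theorem LS_tab {d : α → ℕ → ℕ} {q m C B : α → ℕ} (hd : LS (fun p : α × ℕ => d p.1 p.2))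
    (hq : LS q) (hm : LS m) (hC : LS C) (hB : LS B) (hq0 : ∀ a, 0 < q a)
    (hd' : ∀ a, ∀ i < m a, d a i ≤ B a)
    (hb : ∀ a, q a ^ m a ≤ C a) : LS (fun a => tab (q a) (m a) (d a)) := by
  have h1 : LS (fun a => ∑ i ∈ range (m a), d a i * capPow (q a) i (C a)) := by
    refine LS.sum_le (f := fun a i => d a i * capPow (q a) i (C a))
      (B := fun a => B a * (C a + 1)) ?_ hm (by fun_prop) ?_
    · fun_prop
    · intro a i hi
      exact Nat.mul_le_mul (hd' a i hi) (min_le_right _ _)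
  refine LS.congr h1 fun a => ?_
  refine sum_congr rfl fun i hi => ?_
  have hi' := mem_range.1 hi
  have h3 : q a ^ i ≤ C a := (Nat.pow_le_pow_right (hq0 a) hi'.le).trans (hb a)
  rw [capPow, min_eq_left (by omega)]

theorem LS_accN {v : α → ℕ} (hv : LS v) : LS (fun a => accN (v a)) := by
  unfold accN
  fun_prop

/-- A family of parameters in the class. -/
structure PF (m : α → Prm) (C : α → ℕ) : Prop where
  st : LS (fun z => (m z).st)
  S : LS (fun z => (m z).S)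
  κ : LS (fun z => (m z).κ)
  D : LS (fun z => (m z).D)
  k : LS (fun z => (m z).k)
  d : LS (fun z => (m z).d)
  hC : LS C
  b2 : ∀ z, 2 ^ (2 * ((m z).S + 1)) ≤ C z
  b3 : ∀ z, 2 ^ ((m z).S + 1) ≤ C z
  b4 : ∀ z, 2 ^ (m z).κ ≤ C z
  b5 : ∀ z, (2 ^ (m z).κ) ^ (m z).D ≤ C z
  b6 : ∀ z, (2 ^ (m z).κ) ^ ((m z).D * ((m z).k + 1)) ≤ C z
  b7 : ∀ z, (3 * (m z).d) ^ (m z).D ≤ C z
  b8 : ∀ z, 0 < (m z).d
  fwq : LS (fun z : α × ℕ => (m z.1).wq z.2)
  fwl : LS (fun z : α × ℕ => (m z.1).wl z.2)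
  faj : LS (fun z : α × ℕ => (m z.1).aj z.2)
  fadN : LS (fun z : α × ℕ => (m z.1).adN z.2)
  fnu : LS (fun z : α × ℕ × ℕ => (m z.1).nu z.2.1 z.2.2)
  fnw : LS (fun z : α × ℕ × ℕ => (m z.1).nw z.2.1 z.2.2)

namespace PF

variable {m : α → Prm} {C : α → ℕ}

theorem comp (h : PF m C) {π : β → α} (hπ : LS π) :
    PF (fun b => m (π b)) (fun b => C (π b)) where
  st := LS.comp (g := fun z => (m z).st) h.st hπ
  S := LS.comp (g := fun z => (m z).S) h.S hπ
  κ := LS.comp (g := fun z => (m z).κ) h.κ hπ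
  D := LS.comp (g := fun z => (m z).D) h.D hπ
  k := LS.comp (g := fun z => (m z).k) h.k hπ
  d := LS.comp (g := fun z => (m z).d) h.d hπ
  hC := LS.comp (g := C) h.hC hπ
  b2 := fun z => h.b2 (π z)
  b3 := fun z => h.b3 (π z)
  b4 := fun z => h.b4 (π z)
  b5 := fun z => h.b5 (π z)
  b6 := fun z => h.b6 (π z)
  b7 := fun z => h.b7 (π z)
  b8 := fun z => h.b8 (π z)
  fwq := LS.comp (g := fun z : α × ℕ => (m z.1).wq z.2) (f := fun p : β × ℕ => (π p.1, p.2))
    h.fwq (LS.prodMk (LS.comp (g := π) hπ LS.fst) LS.snd)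
  fwl := LS.comp (g := fun z : α × ℕ => (m z.1).wl z.2) (f := fun p : β × ℕ => (π p.1, p.2))
    h.fwl (LS.prodMk (LS.comp (g := π) hπ LS.fst) LS.snd)
  faj := LS.comp (g := fun z : α × ℕ => (m z.1).aj z.2) (f := fun p : β × ℕ => (π p.1, p.2))
    h.faj (LS.prodMk (LS.comp (g := π) hπ LS.fst) LS.snd)
  fadN := LS.comp (g := fun z : α × ℕ => (m z.1).adN z.2) (f := fun p : β × ℕ => (π p.1, p.2))
    h.fadN (LS.prodMk (LS.comp (g := π) hπ LS.fst) LS.snd)
  fnu := LS.comp (g := fun z : α × ℕ × ℕ => (m z.1).nu z.2.1 z.2.2)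
    (f := fun p : β × ℕ × ℕ => (π p.1, p.2))
    h.fnu (LS.prodMk (LS.comp (g := π) hπ LS.fst) LS.snd)
  fnw := LS.comp (g := fun z : α × ℕ × ℕ => (m z.1).nw z.2.1 z.2.2)
    (f := fun p : β × ℕ × ℕ => (π p.1, p.2))
    h.fnw (LS.prodMk (LS.comp (g := π) hπ LS.fst) LS.snd)

variable (h : PF m C)
include h

theorem pS : LS (fun z => 2 ^ ((m z).S + 1)) :=
  LS.pow_of_le (f := fun _ => 2) (LS.const 2) (LS.add h.S (LS.const 1)) h.hC h.b3

theorem pS2 : LS (fun z => 2 ^ (2 * ((m z).S + 1))) :=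
  LS.pow_of_le (f := fun _ => 2) (LS.const 2) (LS.mul (LS.const 2) (LS.add h.S (LS.const 1)))
    h.hC h.b2

theorem pκ : LS (fun z => 2 ^ (m z).κ) :=
  LS.pow_of_le (f := fun _ => 2) (LS.const 2) h.κ h.hC h.b4

theorem pκ' : LS (fun z => 2 ^ ((m z).κ - 1)) :=
  LS.pow_of_le (f := fun _ => 2) (LS.const 2) (LS.sub h.κ (LS.const 1)) h.hC fun z =>
    (Nat.pow_le_pow_right (by norm_num) (Nat.sub_le _ _)).trans (h.b4 z)

variable {v c j i u l p x : α → ℕ}

theorem wq (hv : LS v) : LS (fun z => (m z).wq (v z)) :=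
  LS.comp (g := fun z : α × ℕ => (m z.1).wq z.2) (f := fun z => (z, v z)) h.fwq
    (LS.prodMk LS.id hv)

theorem wl (hv : LS v) : LS (fun z => (m z).wl (v z)) :=
  LS.comp (g := fun z : α × ℕ => (m z.1).wl z.2) (f := fun z => (z, v z)) h.fwl
    (LS.prodMk LS.id hv)

theorem aj (hv : LS v) : LS (fun z => (m z).aj (v z)) :=
  LS.comp (g := fun z : α × ℕ => (m z.1).aj z.2) (f := fun z => (z, v z)) h.faj
    (LS.prodMk LS.id hv)

theorem adN (hv : LS v) : LS (fun z => (m z).adN (v z)) :=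
  LS.comp (g := fun z : α × ℕ => (m z.1).adN z.2) (f := fun z => (z, v z)) h.fadN
    (LS.prodMk LS.id hv)

theorem nu (hv : LS v) (hc : LS c) : LS (fun z => (m z).nu (v z) (c z)) :=
  LS.comp (g := fun z : α × ℕ × ℕ => (m z.1).nu z.2.1 z.2.2) (f := fun z => (z, v z, c z)) h.fnu
    (LS.prodMk LS.id (LS.prodMk hv hc))

theorem nw (hv : LS v) (hc : LS c) : LS (fun z => (m z).nw (v z) (c z)) :=
  LS.comp (g := fun z : α × ℕ × ℕ => (m z.1).nw z.2.1 z.2.2) (f := fun z => (z, v z, c z)) h.fnw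
    (LS.prodMk LS.id (LS.prodMk hv hc))

theorem cq (hv : LS v) (hj : LS j) (hi : LS i) : LS (fun z => (m z).cq (v z) (j z) (i z)) :=
  LS.dig h.pκ (LS.div hv h.pS2) (LS.add (LS.mul hj h.D) hi)

omit h [Ctx α] in
theorem cq_lt (m : Prm) (v j i : ℕ) : m.cq v j i < 2 ^ m.κ := dig_lt (by positivity) _ _

theorem pos (hv : LS v) (hj : LS j) : LS (fun z => (m z).pos (v z) (j z)) := by
  have h1 := h.comp (π := fun p : α × ℕ => p.1) LS.fst
  have h2 : LS (fun p : α × ℕ => (m p.1).cq (v p.1) (j p.1) p.2) :=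
    h1.cq (LS.comp (g := v) hv LS.fst) (LS.comp (g := j) hj LS.fst) LS.snd
  exact LS_tab (q := fun z => 2 ^ (m z).κ) (m := fun z => (m z).D)
    (d := fun z i => (m z).cq (v z) (j z) i) (C := C) (B := fun z => 2 ^ (m z).κ)
    h2 h.pκ h.D h.hC h.pκ (fun z => by positivity) (fun z i _ => (cq_lt (m z) _ _ _).le) h.b5

omit h in
theorem pl (hu : LS u) (hi : LS i) : LS (fun z => Prm.pl (u z) (i z)) := by
  unfold Prm.pl
  fun_prop

omit h in
theorem mi (hu : LS u) (hi : LS i) : LS (fun z => Prm.mi (u z) (i z)) := by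
  unfold Prm.mi
  fun_prop

theorem viol (hv : LS v) (hu : LS u) : LS (fun z => (m z).viol (v z) (u z)) := by
  have h1 := h.comp (π := fun p : α × ℕ => p.1) LS.fst
  have hv1 : LS (fun p : α × ℕ => v p.1) := LS.comp (g := v) hv LS.fst
  have hu1 : LS (fun p : α × ℕ => u p.1) := LS.comp (g := u) hu LS.fst
  have h2 : LS (fun p : α × ℕ => (m p.1).cq (v p.1) ((m p.1).aj (v p.1)) p.2) :=
    h1.cq hv1 (h1.aj hv1) LS.snd
  have h3 : LS (fun p : α × ℕ => Prm.pl (u p.1) p.2) := pl hu1 LS.snd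
  have h4 : LS (fun p : α × ℕ => Prm.mi (u p.1) p.2) := mi hu1 LS.snd
  have h5 : LS (fun p : α × ℕ => 1 - le01 (Prm.mi (u p.1) p.2)
      ((m p.1).cq (v p.1) ((m p.1).aj (v p.1)) p.2 + Prm.pl (u p.1) p.2) *
      lt01 ((m p.1).cq (v p.1) ((m p.1).aj (v p.1)) p.2 + Prm.pl (u p.1) p.2 -
        Prm.mi (u p.1) p.2) (2 ^ (m p.1).κ)) :=
    LS.sub (LS.const 1) (LS.mul (LS.le01 h4 (LS.add h2 h3))
      (LS.lt01 (LS.sub (LS.add h2 h3) h4) h1.pκ))
  exact LS.sum_le (N := fun z => (m z).D) (B := fun _ => 1)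
    (f := fun z k => 1 - le01 (Prm.mi (u z) k)
      ((m z).cq (v z) ((m z).aj (v z)) k + Prm.pl (u z) k) *
      lt01 ((m z).cq (v z) ((m z).aj (v z)) k + Prm.pl (u z) k - Prm.mi (u z) k) (2 ^ (m z).κ))
    h5 h.D (LS.const 1) (fun z i _ => Nat.sub_le _ _)

theorem ok (hv : LS v) (hc : LS c) : LS (fun z => (m z).ok (v z) (c z)) :=
  LS.mul (h.adN hv) (LS.mul hc (LS.mul (h.nu hv hc) (LS.mul (h.nw hv hc)
    (LS.eq01 (h.viol hv (h.nu hv hc)) (LS.const 0)))))

theorem c0 (hv : LS v) (hj : LS j) (hi : LS i) : LS (fun z => (m z).c0 (v z) (j z) (i z)) :=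
  LS.ifz (LS.eq01 hj h.k) (h.cq hv hj hi) (h.cq hv (h.aj hv) hi)

theorem c1 (hv : LS v) (hu : LS u) (hj : LS j) (hi : LS i) :
    LS (fun z => (m z).c1 (v z) (u z) (j z) (i z)) :=
  LS.ifz (LS.eq01 hj h.k) (LS.ifz (LS.eq01 hj (h.aj hv)) (h.cq hv hj hi)
    (LS.sub (LS.add (h.cq hv hj hi) (pl hu hi)) (mi hu hi))) (h.cq hv (h.aj hv) hi)

theorem mkL {c : α → ℕ → ℕ → ℕ} (hu : LS u) (hl : LS l)
    (hc : LS (fun p : α × ℕ × ℕ => c p.1 p.2.1 p.2.2)) :
    LS (fun z => (m z).mk' (u z) (l z) (c z)) := by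
  have h1 := h.comp (π := fun p : α × ℕ => p.1) LS.fst
  have h2 : LS (fun p : α × ℕ => c p.1 (p.2 / (m p.1).D) (p.2 % (m p.1).D)) :=
    LS.comp (g := fun p : α × ℕ × ℕ => c p.1 p.2.1 p.2.2)
      (f := fun p : α × ℕ => (p.1, p.2 / (m p.1).D, p.2 % (m p.1).D)) hc
      (LS.prodMk LS.fst (LS.prodMk (LS.div LS.snd h1.D) (LS.mod LS.snd h1.D)))
  exact LS.add (LS.add hu (LS.mul h.pS hl)) (LS.mul h.pS2
    (LS_tab (q := fun z => 2 ^ (m z).κ) (m := fun z => (m z).D * ((m z).k + 1))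
      (d := fun z h => c z (h / (m z).D) (h % (m z).D) % 2 ^ (m z).κ) (C := C)
      (B := fun z => 2 ^ (m z).κ) (LS.mod h2 h1.pκ) h.pκ (LS.mul h.D (LS.add h.k (LS.const 1)))
      h.hC h.pκ (fun z => by positivity)
      (fun z i _ => (Nat.mod_lt _ (by positivity)).le) h.b6))

theorem nx (hv : LS v) (hc : LS c) : LS (fun z => (m z).nx (v z) (c z)) := by
  have h1 := h.comp (π := fun p : α × ℕ × ℕ => p.1) LS.fst
  have hv1 : LS (fun p : α × ℕ × ℕ => v p.1) := LS.comp (g := v) hv LS.fst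
  have hu1 : LS (fun p : α × ℕ × ℕ => (m p.1).nu (v p.1) (c p.1)) :=
    LS.comp (g := fun z => (m z).nu (v z) (c z)) (h.nu hv hc) LS.fst
  have hj1 : LS (fun p : α × ℕ × ℕ => p.2.1) := by fun_prop
  have hi1 : LS (fun p : α × ℕ × ℕ => p.2.2) := by fun_prop
  have h2 : LS (fun p : α × ℕ × ℕ => (m p.1).c0 (v p.1) p.2.1 p.2.2) := h1.c0 hv1 hj1 hi1
  have h3 : LS (fun p : α × ℕ × ℕ => (m p.1).c1 (v p.1) ((m p.1).nu (v p.1) (c p.1))
      p.2.1 p.2.2) := h1.c1 hv1 hu1 hj1 hi1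
  exact LS.ifz (LS_accN (h.wq hv)) (LS.ifz (h.ok hv hc)
    (h.mkL (u := fun _ => 0) (c := fun z => (m z).c0 (v z)) (LS.const 0) hc h2)
    (h.mkL (c := fun z => (m z).c1 (v z) ((m z).nu (v z) (c z))) (h.nu hv hc) (h.nw hv hc) h3))
    (h.mkL (c := fun z => (m z).c0 (v z)) (h.wq hv) hc h2)

theorem cb (hp : LS p) : LS (fun z => (m z).cb (p z)) := by
  have h1 := h.comp (π := fun p : α × ℕ => p.1) LS.fst
  have h2 : LS (fun q : α × ℕ => dig (2 ^ (m q.1).κ) (p q.1) q.2) :=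
    LS.dig h1.pκ (LS.comp (g := p) hp LS.fst) LS.snd
  exact LS_tab (q := fun z => 2 ^ (m z).κ) (m := fun z => (m z).D)
    (d := fun z i => dig (2 ^ (m z).κ) (p z) i / (m z).d) (C := C) (B := fun z => 2 ^ (m z).κ)
    (LS.div h2 h1.d) h.pκ h.D h.hC h.pκ (fun z => by positivity)
    (fun z i _ => (Nat.div_le_self _ _).trans (dig_lt (by positivity) _ _).le) h.b5

theorem ix (hx : LS x) (hp : LS p) : LS (fun z => (m z).ix (x z) (p z)) := by
  have h1 := h.comp (π := fun p : α × ℕ => p.1) LS.fst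
  have h2 : LS (fun q : α × ℕ => dig (2 ^ (m q.1).κ) (p q.1) q.2) :=
    LS.dig h1.pκ (LS.comp (g := p) hp LS.fst) LS.snd
  have h3 : LS (fun q : α × ℕ => dig (2 ^ (m q.1).κ) (x q.1) q.2) :=
    LS.dig h1.pκ (LS.comp (g := x) hx LS.fst) LS.snd
  exact LS_tab (q := fun z => 3 * (m z).d) (m := fun z => (m z).D)
    (d := fun z i => (dig (2 ^ (m z).κ) (p z) i + (m z).d - dig (2 ^ (m z).κ) (x z) i * (m z).d) %
      (3 * (m z).d)) (C := C) (B := fun z => 3 * (m z).d)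
    (LS.mod (LS.sub (LS.add h2 h1.d) (LS.mul h3 h1.d)) (LS.mul (LS.const 3) h1.d))
    (LS.mul (LS.const 3) h.d) h.D h.hC (LS.mul (LS.const 3) h.d)
    (fun z => Nat.mul_pos (by norm_num) (h.b8 z))
    (fun z i _ => (Nat.mod_lt _ (Nat.mul_pos (by norm_num) (h.b8 z))).le) h.b7

theorem cel (hx : LS x) (hc : LS c) : LS (fun z => (m z).cel (x z) (c z)) := by
  have h1 := h.comp (π := fun p : α × ℕ => p.1) LS.fst
  have h2 : LS (fun q : α × ℕ => dig (3 * (m q.1).d) (c q.1) q.2) :=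
    LS.dig (LS.mul (LS.const 3) h1.d) (LS.comp (g := c) hc LS.fst) LS.snd
  have h3 : LS (fun q : α × ℕ => dig (2 ^ (m q.1).κ) (x q.1) q.2) :=
    LS.dig h1.pκ (LS.comp (g := x) hx LS.fst) LS.snd
  exact LS_tab (q := fun z => 2 ^ (m z).κ) (m := fun z => (m z).D)
    (d := fun z i => (dig (2 ^ (m z).κ) (x z) i * (m z).d + dig (3 * (m z).d) (c z) i - (m z).d) %
      2 ^ (m z).κ) (C := C) (B := fun z => 2 ^ (m z).κ)
    (LS.mod (LS.sub (LS.add (LS.mul h3 h1.d) h2) h1.d) h1.pκ)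
    h.pκ h.D h.hC h.pκ (fun z => by positivity)
    (fun z i _ => (Nat.mod_lt _ (by positivity)).le) h.b5

theorem q0 : LS (fun z => (m z).q0) := by
  have h1 : LS (fun p : α × ℕ × ℕ => 2 ^ ((m p.1).κ - 1)) :=
    LS.comp (g := fun z => 2 ^ ((m z).κ - 1)) h.pκ' LS.fst
  exact h.mkL (u := fun z => capN (m z).S (m z).st) (l := fun _ => 0)
    (c := fun z _ _ => 2 ^ ((m z).κ - 1)) (LS.capN h.S h.st) (LS.const 0) h1

end PF

/-! ### The parameters -/

theorem two_pow_le_CE {x t : ℕ} (h : t ≤ 100 * (Nat.log 2 x + 1)) : 2 ^ t ≤ Ep.CE x := by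
  refine (Nat.pow_le_pow_right (by norm_num) h).trans ((two_pow_log_le x 100).trans ?_)
  unfold Ep.CE
  exact Nat.pow_le_pow_right (by omega) (by norm_num)

theorem LS_CE {x : α → ℕ} (hx : LS x) : LS (fun a => Ep.CE (x a)) := by
  unfold Ep.CE
  exact (LS.add hx (LS.const 2)).pow_const 20000

/-- **Packet MLS3.** -/
theorem MLS3 (h1 : MLS1_stmt) (h2 : MLS2_stmt) (hD : DIM_stmt) : MLS3_stmt := by
  intro α _ eA eN eW st x y S D k hI
  obtain ⟨-, -, -, hst, hx, -, hS, hD', hk⟩ := id hI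
  obtain ⟨-, gS, gD, gk, gd, ge, gN, -⟩ := h1 (α := α) hx hS hD' hk
  obtain ⟨gwq, gwl, gaj, gadN, gnu, gnw⟩ := h2 hI
  have hn : LS (fun z => Nat.log 2 (x z)) := LS.log2 hx
  have gκ : LS (fun z => kap (Nat.log 2 (x z))) := by
    unfold kap
    fun_prop
  have hC : LS (fun z => Ep.CE (x z)) := LS_CE hx
  have hP := fun z => hD.2 (eA z) (eN z) (eW z) (st z) (x z) (y z) (S z) (D z) (k z)
  have hM : ∀ z, Ep.mR (Nat.log 2 (x z)) ≤ Nat.log 2 (x z) + 8 := fun z => by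
    unfold Ep.mR
    exact Nat.add_le_add_right (Nat.div_le_self _ _) _
  have hpow : ∀ z t, t ≤ Ep.mR (Nat.log 2 (x z)) → 2 ^ t ≤ Ep.CE (x z) := fun z t ht =>
    two_pow_le_CE (by have := hM z; omega)
  -- all parameters
  have hσm : ∀ z, (prm (eA z) (eN z) (eW z) (st z) (x z) (y z) (S z) (D z) (k z)).wk.wc ≤
      Ep.mR (Nat.log 2 (x z)) := by
    intro z
    refine le_trans ?_ (hP z).2.2.2.h1
    refine le_trans ?_ (Nat.le_add_left _ _)
    exact Nat.le_mul_of_pos_left _ (Nat.succ_pos _)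
  have hσ : ∀ z, (prm (eA z) (eN z) (eW z) (st z) (x z) (y z) (S z) (D z) (k z)).σ ≤
      Ep.mR (Nat.log 2 (x z)) := fun z => le_trans (Nat.le_add_right _ _) (hσm z)
  have hPF : PF (fun z => prm (eA z) (eN z) (eW z) (st z) (x z) (y z) (S z) (D z) (k z))
      (fun z => Ep.CE (x z)) :=
    { st := hst
      S := gS
      κ := gκ
      D := gD
      k := gk
      d := gd
      hC := hC
      b2 := fun z => hpow z _ ((Nat.le_add_right _ _).trans (hσ z))
      b3 := fun z => hpow z _ (by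
        refine le_trans ?_ (hσ z)
        unfold Prm.σ
        refine le_trans ?_ (Nat.le_add_right _ _)
        omega)
      b4 := fun z => by
        apply two_pow_le_CE
        show kap (Nat.log 2 (x z)) ≤ _
        have h1 := ll_le (Nat.log 2 (x z))
        unfold kap
        omega
      b5 := fun z => by
        rw [← pow_mul]
        apply hpow
        refine le_trans ?_ (hσ z)
        unfold Prm.σ
        refine le_trans ?_ (Nat.le_add_left _ _)
        exact Nat.mul_le_mul_left _ (Nat.le_mul_of_pos_right _ (Nat.succ_pos _))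
      b6 := fun z => by
        rw [← pow_mul]
        apply hpow
        refine le_trans ?_ (hσ z)
        unfold Prm.σ
        exact Nat.le_add_left _ _
      b7 := fun z => by
        refine Nat.lt_two_pow_self.le.trans (hpow z _ ?_)
        refine le_trans ?_ (hσm z)
        refine le_trans ?_ (Nat.le_add_left _ _)
        exact Nat.le_mul_of_pos_left _ (Nat.succ_pos _)
      b8 := fun z => (hP z).1
      fwq := gwq
      fwl := gwl
      faj := gaj
      fadN := gadN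
      fnu := gnu
      fnw := gnw }
  have hP1 := hPF.comp (π := fun p : α × ℕ => p.1) LS.fst
  have hP2 := hPF.comp (π := fun p : α × ℕ × ℕ => p.1) LS.fst
  have ha : LS (fun p : α × ℕ × ℕ => p.2.1) := by fun_prop
  have hb : LS (fun p : α × ℕ × ℕ => p.2.2) := by fun_prop
  exact
    { σ := LS.add (LS.mul (LS.const 2) (LS.add gS (LS.const 1)))
        (LS.mul gκ (LS.mul gD (LS.add gk (LS.const 1))))
      s := LS.add gS (LS.const 1)
      N := gN
      d := gd
      e := ge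
      k := gk
      lam := LS.add (LS.mul gκ gD) (LS.const 1)
      aj := gaj
      pos := hP2.pos ha hb
      lp := hP1.pos LS.snd hP1.k
      lc := gwl
      nx := hP2.nx ha hb
      cb := hP1.cb LS.snd
      ix := hP2.ix ha hb
      cel := hP2.cel ha hb
      q0 := hPF.q0
      c0 := LS.const 1
      bd := hC
      hd := fun z => (hP z).1
      he := fun z => (hP z).2.1
      hk := fun z => (hP z).2.2.1
      hN := fun z => Nat.pow_pos (Nat.mul_pos (by norm_num) (hP z).1)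
      lc_lt := fun z v => Nat.mod_lt _ (by positivity)
      c0_lt := fun z => Nat.one_lt_pow (Nat.succ_ne_zero _) (by norm_num)
      hC := fun z => hpow z _ (hP z).2.2.2.h1
      hC' := fun z => by
        apply two_pow_le_CE
        have h3 := (hP z).2.2.2.h3
        have h4 : (prm (eA z) (eN z) (eW z) (st z) (x z) (y z) (S z) (D z) (k z)).wk.mach.lam *
            (prm (eA z) (eN z) (eW z) (st z) (x z) (y z) (S z) (D z) (k z)).wk.mach.E ≤
            Nat.log 2 (x z) + 8 := le_trans (Nat.le_mul_of_pos_left _ (Nat.succ_pos _)) h3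
        refine le_trans h4 ?_
        omega }

end Pool.Agent.Helper73.ME
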